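import Pool.Agent.P.MP_f05dbc_gt.Bic

namespace Pool.Agent.Results.MP_f05dbc_gt.BicombingEZ

open Pool.Agent.P.MP_f05dbc_gt

theorem result {G : Type*} [Group G] (htf : ∀ g : G, IsOfFinOrder g → g = 1)
    {X : Type} [MetricSpace X] [ProperSpace X] [MulAction G X] [IsIsometricSMul G X]
    (hdim : FinDim X) (β : X → X → unitInterval → X) (hβ : IsBicombing β)
    (hequiv : ∀ (g : G) (x y : X) (t : unitInterval), g • β x y t = β (g • x) (g • y) t)
    (o : X) (hcocompact : ∃ R : ℝ, ∀ x : X, ∃ g : G, dist (g • x) o ≤ R)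
    (hdiscrete : ∀ R : ℝ, {x ∈ MulAction.orbit G o | dist x o ≤ R}.Finite)
    (hstab : VirtPolycyclic (MulAction.stabilizer G o)) : HasEZ G := by
  obtain ⟨M, hM, Y, _, Z, a, h, he⟩ :=
    HasG.of_poly hstab (hβ.hasG hequiv hdim o hcocompact hdiscrete)
  exact ⟨Y, _, Z, a, h.isGeom hM, (h.isGeom hM).isFree htf, he trivial⟩

end Pool.Agent.Results.MP_f05dbc_gt.BicombingEZ
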