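import Pool.Agent.P.MP_f05dbc_gt.Asm

namespace Pool.Agent.Results.MP_f05dbc_gt.ExtZ

open Pool.Agent.P.MP_f05dbc_gt

theorem result {G : Type*} [Group G] (hG : HasModel G) (N : Subgroup G) (hN : HasZ N)
    {Y : Type} [TopologicalSpace Y] (Z : Set Y) (b : G →* (↥Zᶜ ≃ₜ ↥Zᶜ)) (hb : IsCoGeom N Z b) :
    HasZ G := by
  obtain ⟨X, _, Z₀, c, hc, -⟩ := hN
  obtain ⟨W, _, Z₁, a, h1, h2, -⟩ := closure_top (e := False) hG hc hb False.elim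
  exact ⟨W, _, Z₁, a, h1, h2⟩

end Pool.Agent.Results.MP_f05dbc_gt.ExtZ
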