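import Pool.Agent.P.MP_f05dbc_gt.NZ.NoZ
import Pool.Agent.P.MP_f05dbc_gt.NZ.Graph
import Pool.Agent.P.MP_f05dbc_gt.NZ.Model
import Pool.Agent.P.MP_f05dbc_gt.NZ.Contr
import Pool.Agent.P.MP_f05dbc_gt.NZ.Conn

/-!
A group of type F without a Z-structure: the Bestvina-Brady group of a contractible flag complex
with a knotted triangle.
-/

namespace Pool.Agent.Results.MP_f05dbc_gt.NoZStructure

open Pool.Agent.P.MP_f05dbc_gt Pool.Agent.P.MP_f05dbc_gt.NZ

theorem result : ∃ (G : Type) (_ : Group G), TypeF G ∧ ¬ HasWeakZ G := by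
  obtain ⟨n, Γ, a, b, c, ρ, h1, h2⟩ := exists_knotted
  obtain ⟨T, hT, h3⟩ := obstr_BB h2
  refine ⟨BB Γ, inferInstance, typeF_BB (ptContr_sk h1), not_hasWeakZ _ (fun m => ?_) T hT h3⟩
  exact (finite_ball m).preimage Subtype.val_injective.injOn

end Pool.Agent.Results.MP_f05dbc_gt.NoZStructure
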