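import Pool.Agent.P.MP_f05dbc_gt.Poly

namespace Pool.Agent.Results.MP_f05dbc_gt.RelEZ

open Pool.Agent.P.MP_f05dbc_gt

theorem result {G : Type*} [Group G] (htf : ∀ g : G, IsOfFinOrder g → g = 1)
    (N : Subgroup G) (hN : VirtPolycyclic N) (h : HasRelEZ N) : HasEZ G := by
  obtain ⟨Y, _, Z, a, h, he⟩ := h
  obtain ⟨M, hM, X, _, Z', a', h', he'⟩ :=
    HasG.of_poly (e := True) hN ⟨Y, _, Z, a, h, fun _ => he⟩
  exact ⟨X, _, Z', a', h'.isGeom hM, (h'.isGeom hM).isFree htf, he' trivial⟩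

end Pool.Agent.Results.MP_f05dbc_gt.RelEZ
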